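import Mathlib
import Pool.Agent.J4.H93.RZ.Up

/-!
# MP_d18e52_an: the constant `C_{s,2}`, `s > 2`, is the value predicted in Q2 up to a factor
`1 - 10⁻⁸ s`

The definitions are in `Pool/Agent/J4/H93/RZ/Cube.lean` and `Pool/Agent/J4/H93/RZ/CubeLim.lean`:

* `Sq` is the unit square in `P = EuclideanSpace ℝ (Fin 2)`; `Er s x` is the sum of
  `|x_i - x_j|^(-s)` over the ordered pairs `i ≠ j`;
* `Emin s N` is the infimum of `Er s x` over the `N`-tuples of distinct points of `Sq`, the minimal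
  energy `𝓔_s([0,1]²; N)`; the problem's constant is `C_{s,2} = lim N^(-1-s/2) 𝓔_s([0,1]²; N)`;
* `Zh s = (√3/2)^(s/2) ∑_{(j,k) ≠ 0} (j² + jk + k²)^(-s/2)`, which is `|Λ₂|^(s/2) ζ_{Λ₂}(s)`.
-/

set_option autoImplicit false

open Filter Topology

namespace Pool.Agent.Results.MP_d18e52_an.PlanarConstant

open Pool.Agent.J4.H93.RZ

/-- For every `s > 2` the constant `C_{s,2}` satisfies
`(1 - 10⁻¹⁰) (1 + 10⁻⁸)^(-s/2) |Λ₂|^(s/2) ζ_{Λ₂}(s) ≤ C_{s,2} ≤ |Λ₂|^(s/2) ζ_{Λ₂}(s)`. -/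
theorem result (s : ℝ) (hs : 2 < s) (C : ℝ)
    (hC : Tendsto (fun N : ℕ => Emin s N / (N : ℝ) ^ (1 + s / 2)) atTop (𝓝 C)) :
    (1 - 10 ^ (-10 : ℤ)) * (1 + 10 ^ (-8 : ℤ)) ^ (-(s / 2)) * Zh s ≤ C ∧ C ≤ Zh s := by
  refine ⟨?_, C_le hs hC⟩
  refine le_trans ?_ (C_ge hs hC)
  rw [mul_assoc]
  exact mul_le_mul_of_nonneg_left (Zs_ge hs) (by norm_num)

end Pool.Agent.Results.MP_d18e52_an.PlanarConstant
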